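import Pool.Agent.Helper15.SZ.DHJBase
import Pool.Agent.Helper52.SZ.Core

/-!
Project SZ, module SZ-13: the density Hales-Jewett theorem for all finite alphabets.
-/

namespace Pool.Agent.Helper52.SZ

open Combinatorics

theorem dhj_option {α : Type} [Finite α] (hD : DHJ α) : DHJ (Option α) :=
  dhj_option_of fun hN _ hδ hG => by
    have := hN
    exact core hD hδ hG

theorem dhj (α : Type) [Finite α] : DHJ α :=
  dhj_of_step (fun _ _ h => dhj_option h) α

end Pool.Agent.Helper52.SZ
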