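import Pool.Agent.Helper52.SZ.Defs

/-!
Project SZ, module SZ-13 (part without core): the induction over the alphabet.
-/

namespace Pool.Agent.Helper52.SZ

open Combinatorics

/-- an alphabet with one letter (at most) is trivial -/
theorem dhj_subsingleton {β : Type} [Subsingleton β] [Finite β] : DHJ β := by
  intro δ hδ
  refine ⟨1, fun ι _ hι A hA => ?_⟩
  have hne : Nonempty ι := by
    by_contra h
    rw [not_nonempty_iff] at h
    rw [Nat.card_of_isEmpty] at hι
    omega
  obtain ⟨w, hw⟩ := nonempty_of_dn_pos (lt_of_lt_of_le hδ hA)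
  refine ⟨⟨fun _ => none, ⟨Classical.choice hne, rfl⟩⟩, fun x => ?_⟩
  have : (⟨fun _ => none, ⟨Classical.choice hne, rfl⟩⟩ : Line β ι) x = w :=
    funext fun j => Subsingleton.elim _ _
  rw [this]
  exact hw

/-- the critical density argument, from the statement of the core theorem -/
theorem dhj_option_of {α : Type} [Finite α]
    (hcore : Nonempty α → ∀ δ : ℝ, 0 < δ → (∀ γ : ℝ, 0 < γ → Good (Option α) (δ + γ)) →
      ∃ ε : ℝ, 0 < ε ∧ Good (Option α) (δ - ε)) : DHJ (Option α) := by
  rcases isEmpty_or_nonempty α with hE | hN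
  · have : Subsingleton (Option α) := ⟨fun a b => by
      cases a with
      | none => cases b with
        | none => rfl
        | some b => exact isEmptyElim b
      | some a => exact isEmptyElim a⟩
    exact dhj_subsingleton
  · intro δ0 hδ0
    by_contra hbad
    set S : Set ℝ := {δ | 0 < δ ∧ Good (Option α) δ} with hS
    have h2 : (2 : ℝ) ∈ S := ⟨by norm_num, good_of_one_lt (by norm_num)⟩
    have hlow : ∀ δ ∈ S, δ0 ≤ δ := by
      intro δ hδ
      by_contra hlt
      push Not at hlt
      exact hbad (hδ.2.mono hlt.le)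
    have hbdd : BddBelow S := ⟨δ0, hlow⟩
    have hge : δ0 ≤ sInf S := le_csInf ⟨2, h2⟩ hlow
    have hpos : 0 < sInf S := lt_of_lt_of_le hδ0 hge
    obtain ⟨ε, hε, hG⟩ := hcore hN (sInf S) hpos (fun γ hγ => by
      obtain ⟨δ, hδ, hlt⟩ := exists_lt_of_csInf_lt ⟨2, h2⟩
        (show sInf S < sInf S + γ by linarith)
      exact hδ.2.mono hlt.le)
    have hm : max (sInf S - ε) (sInf S / 2) ∈ S :=
      ⟨lt_of_lt_of_le (by linarith) (le_max_right _ _), hG.mono (le_max_left _ _)⟩
    have h3 := csInf_le hbdd hm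
    rcases max_cases (sInf S - ε) (sInf S / 2) with ⟨h4, _⟩ | ⟨h4, _⟩ <;>
      rw [h4] at h3 <;> linarith

theorem dhj_congr {α β : Type} (e : α ≃ β) (h : DHJ α) : DHJ β := by
  intro δ hδ
  obtain ⟨n0, h0⟩ := h δ hδ
  refine ⟨n0, fun ι _ hι A hA => ?_⟩
  obtain ⟨l, hl⟩ := h0 ι hι {w | (fun j => e (w j)) ∈ A} (by
    have := dn_equiv (Equiv.arrowCongr (Equiv.refl ι) e) A
    have h2 : {x | (Equiv.arrowCongr (Equiv.refl ι) e) x ∈ A} = {w : ι → α | (fun j => e (w j)) ∈ A} := rfl
    rw [h2] at this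
    rw [this]
    exact hA)
  refine ⟨⟨fun j => (l.idxFun j).map e, ?_⟩, fun x => ?_⟩
  · obtain ⟨j, hj⟩ := l.proper
    exact ⟨j, by rw [hj]; rfl⟩
  · have h3 := hl (e.symm x)
    have h4 : (⟨fun j => (l.idxFun j).map e, by
        obtain ⟨j, hj⟩ := l.proper
        exact ⟨j, by rw [hj]; rfl⟩⟩ : Line β ι) x = fun j => e (l (e.symm x) j) := by
      funext j
      simp only [Line.coe_apply]
      cases l.idxFun j with
      | none => simp
      | some a => simp
    rw [h4]
    exact h3

/-- induction over finite alphabets -/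
theorem dhj_of_step (hstep : ∀ (α : Type) [Finite α], DHJ α → DHJ (Option α))
    (α : Type) [Finite α] : DHJ α := by
  refine Finite.induction_empty_option (P := fun α => DHJ α) ?_ ?_ ?_ α
  · intro α β e h
    exact dhj_congr e h
  · exact dhj_subsingleton
  · intro α _ h
    exact hstep α h

end Pool.Agent.Helper52.SZ
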